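import Pool.Agent.W774.TL.Stm

set_option autoImplicit false

namespace Pool.Agent.W433.TL.TWO

open Set Filter Topology
open Pool.Agent.W774.TL

theorem S_int (u : ℝ) (n : ℤ) : S (u + n) = S u := by
  unfold S
  have : 2 * Real.pi * (u + n) = 2 * Real.pi * u + n * (2 * Real.pi) := by ring
  rw [this, Real.sin_add_int_mul_two_pi]

theorem Co_int (u : ℝ) (n : ℤ) : Co (u + n) = Co u := by
  unfold Co
  have : 2 * Real.pi * (u + n) = 2 * Real.pi * u + n * (2 * Real.pi) := by ring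
  rw [this, Real.cos_add_int_mul_two_pi]

theorem Co_le (u : ℝ) : |Co u| ≤ 1 := Real.abs_cos_le_one _

theorem arg0 (k : ℕ) (N : ℤ) (τ a : ℝ) :
    (a + k * (τ + (k + 1)) + N) - ((k : ℤ) : ℝ) * (τ + (k + 1)) = a + (N : ℤ) := by
  push_cast; ring

theorem arg1 (k : ℕ) (N : ℤ) (τ a : ℝ) :
    (a + k * (τ + (k + 1)) + N) - (((k : ℤ) + 1 : ℤ) : ℝ) * (τ + (k + 1)) =
      (a - τ) + ((N - (k + 1) : ℤ) : ℝ) := by
  push_cast; ring

theorem natAbs1 (k : ℕ) : ((k : ℤ) + 1).natAbs = k + 1 := by omega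

/-- the ratio of the two states -/
theorem ratio (k : ℕ) (N : ℤ) (τ a p : ℝ) :
    E ((k : ℤ) + 1) (a + k * (τ + (k + 1)) + N) p (τ + (k + 1)) =
      E (k : ℤ) (a + k * (τ + (k + 1)) + N) p (τ + (k + 1)) * Real.exp (yy (3 ^ k) τ a p) := by
  unfold E
  rw [← Real.exp_add]
  congr 1
  unfold V
  rw [arg0, arg1, S_int, S_int, natAbs1, Int.natAbs_natCast]
  unfold yy
  push_cast
  ring

theorem dom (h2 : P_DOM1) (h3 : P_DOM3) (k : ℕ) (N : ℤ) (τ a p : ℝ)
    (hR : R1 (3 ^ k) τ a p ∨ R3 (3 ^ k) τ a p) (j : ℤ) (hj : j ≠ (k : ℤ))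
    (hj' : j ≠ (k : ℤ) + 1) :
    E j (a + k * (τ + (k + 1)) + N) p (τ + (k + 1)) ≤
      (E (k : ℤ) (a + k * (τ + (k + 1)) + N) p (τ + (k + 1)) +
        E ((k : ℤ) + 1) (a + k * (τ + (k + 1)) + N) p (τ + (k + 1))) *
        (Real.exp (-((3 : ℝ) ^ k) / 50) * Real.exp (-((3 : ℝ) ^ j.natAbs) / 50)) := by
  have hpos : ∀ (i : ℤ), 0 < E i (a + k * (τ + (k + 1)) + N) p (τ + (k + 1)) :=
    fun i => Real.exp_pos _
  have hq : 0 < Real.exp (-((3 : ℝ) ^ k) / 50) * Real.exp (-((3 : ℝ) ^ j.natAbs) / 50) := by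
    positivity
  rcases hR with hR | hR
  · have h := h2 k N τ a p hR j hj hj'
    have h5 : E j (a + k * (τ + (k + 1)) + N) p (τ + (k + 1)) ≤
        E (k : ℤ) (a + k * (τ + (k + 1)) + N) p (τ + (k + 1)) *
        (Real.exp (-((3 : ℝ) ^ k) / 50) * Real.exp (-((3 : ℝ) ^ j.natAbs) / 50)) := by
      unfold E
      rw [← Real.exp_add, ← Real.exp_add]
      apply Real.exp_le_exp.2
      push_cast at h ⊢
      linarith
    refine h5.trans (mul_le_mul_of_nonneg_right ?_ hq.le)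
    linarith [hpos ((k : ℤ) + 1)]
  · have h := h3 k N τ a p hR j hj hj'
    have h5 : E j (a + k * (τ + (k + 1)) + N) p (τ + (k + 1)) ≤
        E ((k : ℤ) + 1) (a + k * (τ + (k + 1)) + N) p (τ + (k + 1)) *
        (Real.exp (-((3 : ℝ) ^ k) / 50) * Real.exp (-((3 : ℝ) ^ j.natAbs) / 50)) := by
      unfold E
      rw [← Real.exp_add, ← Real.exp_add]
      apply Real.exp_le_exp.2
      push_cast at h ⊢
      linarith
    refine h5.trans (mul_le_mul_of_nonneg_right ?_ hq.le)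
    linarith [hpos (k : ℤ)]

/-- the abstract estimate -/
theorem est (c φ w : ℤ → ℝ) (K L : ℤ) (hKL : K ≠ L) (hc : ∀ j, 0 < c j) (hsc : Summable c)
    (hsφ : Summable (fun j => φ j * c j)) (W : ℝ) (hw : HasSum w W) (hwn : ∀ j, 0 ≤ w j) (m : ℝ)
    (hm : m * (c K + c L) = φ K * c K + φ L * c L)
    (hb : ∀ j, j ≠ K → j ≠ L → |φ j - m| * c j ≤ (c K + c L) * w j) :
    |(∑' j, φ j * c j) / (∑' j, c j) - m| ≤ W := by
  classical
  have hW : 0 ≤ W := hw.nonneg hwn
  have hZ2 : c K + c L ≤ ∑' j, c j := by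
    have h1 := hsc.sum_le_tsum {K, L} (fun i _ => (hc i).le)
    rw [Finset.sum_pair hKL] at h1
    exact h1
  have hZ2p : 0 < c K + c L := add_pos (hc K) (hc L)
  have hZ : 0 < ∑' j, c j := lt_of_lt_of_le hZ2p hZ2
  have hf : Summable (fun j => (φ j - m) * c j) := by
    have h1 := hsφ.sub (hsc.mul_left m)
    refine h1.congr fun j => ?_
    ring
  have h1 : (∑' j, φ j * c j) - m * (∑' j, c j) = ∑' j, (φ j - m) * c j := by
    rw [← tsum_mul_left, ← hsφ.tsum_sub (hsc.mul_left m)]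
    refine tsum_congr fun j => ?_
    ring
  set f' : ℤ → ℝ := fun j => if j = K ∨ j = L then 0 else (φ j - m) * c j with hf'
  have h2 : ∀ j, (φ j - m) * c j = f' j + ((if j = K then (φ K - m) * c K else 0) +
      (if j = L then (φ L - m) * c L else 0)) := by
    intro j
    by_cases hjK : j = K
    · subst hjK
      simp [hf', hKL]
    · by_cases hjL : j = L
      · subst hjL
        simp [hf', hjK]
      · simp [hf', hjK, hjL]
  have hsK : Summable (fun j => if j = K then (φ K - m) * c K else 0) :=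
    (hasSum_ite_eq K ((φ K - m) * c K)).summable
  have hsL : Summable (fun j => if j = L then (φ L - m) * c L else 0) :=
    (hasSum_ite_eq L ((φ L - m) * c L)).summable
  have hbd : ∀ j, ‖f' j‖ ≤ (c K + c L) * w j := by
    intro j
    by_cases hj : j = K ∨ j = L
    · simp only [hf', hj, if_true, norm_zero]
      exact mul_nonneg hZ2p.le (hwn j)
    · simp only [hf', hj, if_false]
      rw [Real.norm_eq_abs, abs_mul, abs_of_pos (hc j)]
      push Not at hj
      exact hb j hj.1 hj.2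
  have hsf' : Summable f' := Summable.of_norm_bounded (hw.summable.mul_left _) hbd
  have h3 : ∑' j, (φ j - m) * c j = ∑' j, f' j := by
    rw [tsum_congr h2, hsf'.tsum_add (hsK.add hsL), hsK.tsum_add hsL,
      (hasSum_ite_eq K ((φ K - m) * c K)).tsum_eq, (hasSum_ite_eq L ((φ L - m) * c L)).tsum_eq]
    linarith
  have h4 : ‖∑' j, f' j‖ ≤ (c K + c L) * W :=
    tsum_of_norm_bounded (hw.mul_left _) hbd
  have h5 : (∑' j, φ j * c j) / (∑' j, c j) - m =
      (∑' j, f' j) / (∑' j, c j) := by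
    rw [← h3, ← h1]
    field_simp
  rw [h5, abs_div, abs_of_pos hZ, div_le_iff₀ hZ]
  rw [Real.norm_eq_abs] at h4
  refine h4.trans ?_
  rw [mul_comm]
  exact mul_le_mul_of_nonneg_left hZ2 hW

theorem sumQ : Summable (fun j : ℤ => (3 : ℝ) ^ j.natAbs * Real.exp (-((3 : ℝ) ^ j.natAbs) / 50)) := by
  have h0 : Summable (fun n : ℕ => (3 : ℝ) ^ n * Real.exp (-((3 : ℝ) ^ n) / 50)) := by
    have h1 : Summable (fun n : ℕ => (5000 : ℝ) * (1 / 3) ^ n) :=
      (summable_geometric_of_lt_one (by norm_num) (by norm_num)).mul_left _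
    refine Summable.of_nonneg_of_le (fun n => by positivity) (fun n => ?_) h1
    have hy : (0 : ℝ) < (3 : ℝ) ^ n := by positivity
    have h2 := Real.quadratic_le_exp_of_nonneg (x := (3 : ℝ) ^ n / 50) (by positivity)
    have h3 : ((3 : ℝ) ^ n / 50) ^ 2 / 2 ≤ Real.exp ((3 : ℝ) ^ n / 50) := by
      have : 0 ≤ 1 + (3 : ℝ) ^ n / 50 := by positivity
      linarith
    have h4 : Real.exp (-((3 : ℝ) ^ n) / 50) = (Real.exp ((3 : ℝ) ^ n / 50))⁻¹ := by
      rw [← Real.exp_neg]; congr 1; ring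
    rw [h4, one_div, inv_pow, ← div_eq_mul_inv, ← div_eq_mul_inv,
      div_le_div_iff₀ (Real.exp_pos _) hy]
    nlinarith
  rw [summable_int_iff_summable_nat_and_neg]
  constructor
  · simpa using h0
  · simpa using h0

noncomputable def Q : ℝ :=
  ∑' j : ℤ, (3 : ℝ) ^ j.natAbs * Real.exp (-((3 : ℝ) ^ j.natAbs) / 50)

theorem small : ∃ K0 : ℕ, ∀ k : ℕ, K0 ≤ k →
    4 * (3 : ℝ) ^ k * Real.exp (-((3 : ℝ) ^ k) / 50) * Q ≤ 1 / ((3 : ℝ) ^ k) ^ 2 := by
  have h1 : Tendsto (fun k : ℕ => (3 : ℝ) ^ k / 50) atTop atTop :=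
    (tendsto_pow_atTop_atTop_of_one_lt (by norm_num)).atTop_div_const (by norm_num)
  have h2 := (Real.tendsto_pow_mul_exp_neg_atTop_nhds_zero 3).comp h1
  have h3 := h2.const_mul (4 * 50 ^ 3 * Q)
  rw [mul_zero] at h3
  have h4 := h3.eventually_le_const (show (0 : ℝ) < 1 by norm_num)
  obtain ⟨K0, hK0⟩ := eventually_atTop.1 h4
  refine ⟨K0, fun k hk => ?_⟩
  have h5 := hK0 k hk
  simp only [Function.comp] at h5
  have hA : (0 : ℝ) < (3 : ℝ) ^ k := by positivity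
  rw [le_div_iff₀ (by positivity)]
  have h6 : -((3 : ℝ) ^ k) / 50 = -((3 : ℝ) ^ k / 50) := by ring
  rw [h6]
  refine le_trans (le_of_eq ?_) h5
  ring

theorem k_le (k : ℕ) : (k : ℝ) + 1 ≤ (3 : ℝ) ^ k := by
  induction k with
  | zero => simp
  | succ n ih =>
    rw [pow_succ]
    push_cast
    have : (0 : ℝ) ≤ n := Nat.cast_nonneg n
    nlinarith

theorem j_le (j : ℤ) : |(j : ℝ)| ≤ (3 : ℝ) ^ j.natAbs := by
  have h1 : |(j : ℝ)| = (j.natAbs : ℝ) := by
    rw [Nat.cast_natAbs, Int.cast_abs]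
  rw [h1]
  have := k_le j.natAbs
  linarith

theorem sg_bd (y : ℝ) : 0 ≤ sg y ∧ sg y ≤ 1 := by
  unfold sg
  have := Real.exp_pos y
  constructor
  · positivity
  · rw [div_le_one (by positivity)]
    linarith

theorem two_thm (h1 : P_SUM) (h2 : P_DOM1) (h3 : P_DOM3) : P_TWO := by
  obtain ⟨K0, hK0⟩ := small
  refine ⟨K0, fun k hk N τ a p hR => ?_⟩
  have hsm := hK0 k hk
  have hA1 : (1 : ℝ) ≤ (3 : ℝ) ^ k := one_le_pow₀ (by norm_num)
  have hdom := dom h2 h3 k N τ a p hR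
  have hrat := ratio k N τ a p
  set x : ℝ := a + k * (τ + (k + 1)) + N with hx
  set t : ℝ := τ + (k + 1) with ht
  set c : ℤ → ℝ := fun j => E j x p t with hc
  have hcpos : ∀ j, 0 < c j := fun j => Real.exp_pos _
  set y : ℝ := yy (3 ^ k) τ a p with hy
  obtain ⟨hs0, hs1⟩ := sg_bd y
  obtain ⟨u, hu, hue⟩ := h1 1 |p|
  have hmaj : ∀ j : ℤ, (3 : ℝ) ^ j.natAbs * c j ≤ u j := by
    intro j
    have := hue j x p t le_rfl
    simpa using this
  have hs3 : Summable (fun j : ℤ => (3 : ℝ) ^ j.natAbs * c j) :=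
    Summable.of_nonneg_of_le (fun j => mul_nonneg (by positivity) (hcpos j).le) hmaj hu
  have hone : ∀ j : ℤ, (1 : ℝ) ≤ (3 : ℝ) ^ j.natAbs := fun j => one_le_pow₀ (by norm_num)
  have hsφ : ∀ φ : ℤ → ℝ, (∀ j, |φ j| ≤ (3 : ℝ) ^ j.natAbs) → Summable (fun j => φ j * c j) := by
    intro φ hφ
    refine Summable.of_norm_bounded hs3 fun j => ?_
    rw [Real.norm_eq_abs, abs_mul, abs_of_pos (hcpos j)]
    exact mul_le_mul_of_nonneg_right (hφ j) (hcpos j).le
  have hsc : Summable c := by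
    have := hsφ (fun _ => 1) (fun j => by rw [abs_one]; exact hone j)
    simpa using this
  have hKL : (k : ℤ) ≠ (k : ℤ) + 1 := by omega
  have hsZ2 : sg y * (c k + c ((k : ℤ) + 1)) = c ((k : ℤ) + 1) := by
    have h5 : c ((k : ℤ) + 1) = c k * Real.exp y := hrat
    rw [h5]
    unfold sg
    have := Real.exp_pos y
    field_simp
  have hmain : ∀ (φ : ℤ → ℝ) (m : ℝ), (∀ j, |φ j| ≤ (3 : ℝ) ^ j.natAbs) → |m| ≤ 3 * 3 ^ k →
      m * (c k + c ((k : ℤ) + 1)) = φ k * c k + φ ((k : ℤ) + 1) * c ((k : ℤ) + 1) →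
      |(∑' j, φ j * c j) / (∑' j, c j) - m| ≤
        4 * (3 : ℝ) ^ k * Real.exp (-((3 : ℝ) ^ k) / 50) * Q := by
    intro φ m hφ hmb hm
    refine est c φ (fun j => 4 * (3 : ℝ) ^ k * Real.exp (-((3 : ℝ) ^ k) / 50) *
      ((3 : ℝ) ^ j.natAbs * Real.exp (-((3 : ℝ) ^ j.natAbs) / 50))) k ((k : ℤ) + 1) hKL hcpos hsc
      (hsφ φ hφ) _ (sumQ.hasSum.mul_left _) (fun j => by positivity) m hm ?_
    intro j hj hj'
    have h6 := hdom j hj hj'
    have h7 : |φ j - m| ≤ 4 * 3 ^ k * (3 : ℝ) ^ j.natAbs := by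
      have h8 := abs_sub (φ j) m
      have h9 := hφ j
      have h10 := hone j
      have h11 : (3 : ℝ) ^ j.natAbs ≤ 3 ^ k * (3 : ℝ) ^ j.natAbs := by nlinarith
      have h12 : (3 : ℝ) ^ k ≤ 3 ^ k * (3 : ℝ) ^ j.natAbs := by nlinarith
      linarith
    calc |φ j - m| * c j ≤ (4 * 3 ^ k * (3 : ℝ) ^ j.natAbs) *
          ((c k + c ((k : ℤ) + 1)) *
            (Real.exp (-((3 : ℝ) ^ k) / 50) * Real.exp (-((3 : ℝ) ^ j.natAbs) / 50))) :=
          mul_le_mul h7 h6 (hcpos j).le (by positivity)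
      _ = _ := by ring
  constructor
  · have h4 := hmain (fun j => (j : ℝ)) (k + sg y) (fun j => j_le j) ?_ ?_
    · refine le_trans (le_of_eq ?_) (h4.trans hsm)
      unfold hp Z
      simp only [hc]
      congr 1
      ring
    · rw [abs_of_nonneg (by positivity)]
      have := k_le k
      linarith
    · push_cast
      linear_combination hsZ2
  · have h4 := hmain (fun j => (3 : ℝ) ^ j.natAbs * Co (x - j * t))
      (3 ^ k * ((1 - sg y) * Co a + 3 * sg y * Co (a - τ))) ?_ ?_ ?_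
    · have h5 : 1 / ((3 : ℝ) ^ k) ^ 2 ≤ 1 := by
        rw [div_le_one (by positivity)]
        exact one_le_pow₀ hA1
      refine le_trans (le_of_eq ?_) ((h4.trans hsm).trans h5)
      unfold fo Z
      simp only [hc]
    · intro j
      rw [abs_mul, abs_of_pos (by positivity : (0 : ℝ) < (3 : ℝ) ^ j.natAbs)]
      have := Co_le (x - j * t)
      have h6 := hone j
      nlinarith
    · rw [abs_mul, abs_of_pos (by positivity : (0 : ℝ) < (3 : ℝ) ^ k)]
      have h6 : |(1 - sg y) * Co a + 3 * sg y * Co (a - τ)| ≤ 3 := by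
        have h7 := abs_le.1 (Co_le a)
        have h8 := abs_le.1 (Co_le (a - τ))
        rw [abs_le]
        constructor
        · nlinarith [h7.1, h8.1, h7.2, h8.2]
        · nlinarith [h7.1, h8.1, h7.2, h8.2]
      nlinarith
    · have h5 : Co (x - ((k : ℤ) : ℝ) * t) = Co a := by
        rw [hx, ht, arg0, Co_int]
      have h6 : Co (x - (((k : ℤ) + 1 : ℤ) : ℝ) * t) = Co (a - τ) := by
        rw [hx, ht, arg1, Co_int]
      simp only [h5, h6, natAbs1, Int.natAbs_natCast]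
      rw [pow_succ]
      linear_combination (3 ^ k * (3 * Co (a - τ) - Co a)) * hsZ2

end Pool.Agent.W433.TL.TWO
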